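import Pool.Agent.H.MP_34cb49_gt.D

namespace Pool.Agent.Results.MP_34cb49_gt.No

open Pool.Agent.H.MP_34cb49_gt

theorem result (ε : ℝ) (hε : 0 < ε) : ∃ g : Met, IsMetric g ∧ IsCompleteMetric g ∧
    posCurv g < ENNReal.ofReal ε ∧ ∃ N : Net 6 8, N.IsGeodesicNet g ∧ N.unb.card = 3 :=
  main ε hε

end Pool.Agent.Results.MP_34cb49_gt.No
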